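import Pool.Agent.Helper54.PW.Defs

set_option autoImplicit false
open scoped Pointwise

namespace Pool.Agent.Helper54.PW

theorem deg_add_le {k : Type} [Field k] {x y : RatFunc k} {d : ℤ} (hx : x = 0 ∨ x.intDegree ≤ d)
    (hy : y = 0 ∨ y.intDegree ≤ d) : x + y = 0 ∨ (x + y).intDegree ≤ d := by
  rcases eq_or_ne (x + y) 0 with h | h
  · exact Or.inl h
  right
  rcases eq_or_ne y 0 with hy0 | hy0
  · subst hy0
    rw [add_zero] at h ⊢
    exact hx.resolve_left h
  rcases eq_or_ne x 0 with hx0 | hx0
  · subst hx0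
    rw [zero_add] at h ⊢
    exact hy.resolve_left h
  exact (RatFunc.intDegree_add_le hy0 h).trans (max_le (hx.resolve_left hx0) (hy.resolve_left hy0))

theorem deg_add_eq {k : Type} [Field k] {x y : RatFunc k} (hx : x ≠ 0)
    (hy : y = 0 ∨ y.intDegree < x.intDegree) : (x + y).intDegree = x.intDegree := by
  have h1 : x + y = 0 ∨ (x + y).intDegree ≤ x.intDegree :=
    deg_add_le (Or.inr le_rfl) (hy.imp_right le_of_lt)
  have h2 : x = (x + y) + (-y) := by ring
  have hy' : -y = 0 ∨ (-y).intDegree < x.intDegree := by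
    rw [RatFunc.intDegree_neg, neg_eq_zero]; exact hy
  by_contra hne
  have h3 : x + y = 0 ∨ (x + y).intDegree ≤ x.intDegree - 1 := by
    rcases h1 with h1 | h1
    · exact Or.inl h1
    · right
      have := lt_of_le_of_ne h1 hne
      omega
  have h4 : -y = 0 ∨ (-y).intDegree ≤ x.intDegree - 1 := by
    rcases hy' with h | h
    · exact Or.inl h
    · right; omega
  have h5 := deg_add_le h3 h4
  rw [← h2] at h5
  rcases h5 with h5 | h5
  · exact hx h5
  · omega

theorem intDegree_pow' {k : Type} [Field k] {y : RatFunc k} (hy : y ≠ 0) (n : ℕ) :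
    (y ^ n).intDegree = n * y.intDegree := by
  induction n with
  | zero => simp
  | succ n ih =>
    rw [pow_succ, RatFunc.intDegree_mul (pow_ne_zero _ hy) hy, ih]
    push_cast; ring

theorem intDegree_wp {p : ℕ} [Fact p.Prime] {k : Type} [Field k] (f y δ : RatFunc k)
    (h : f = y ^ p - y + δ) (hδ : δ = 0 ∨ δ.intDegree < 0) :
    f.intDegree ≤ 0 ∨ (p : ℤ) ∣ f.intDegree := by
  have hp : p.Prime := Fact.out
  have hp2 : (2 : ℤ) ≤ p := by exact_mod_cast hp.two_le
  rcases eq_or_ne y 0 with hy | hy
  · left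
    subst hy
    rw [zero_pow hp.ne_zero, sub_zero, zero_add] at h
    rw [h]
    rcases hδ with hδ | hδ
    · rw [hδ, RatFunc.intDegree_zero]
    · exact hδ.le
  rcases le_or_gt y.intDegree 0 with hd | hd
  · left
    have h1 : y ^ p = 0 ∨ (y ^ p).intDegree ≤ 0 := by
      right
      rw [intDegree_pow' hy]
      nlinarith
    have h2 : -y = 0 ∨ (-y).intDegree ≤ 0 := by
      right; rwa [RatFunc.intDegree_neg]
    have h3 := deg_add_le (deg_add_le h1 h2) (hδ.imp_right le_of_lt)
    rw [← sub_eq_add_neg, ← h] at h3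
    rcases h3 with h3 | h3
    · rw [h3, RatFunc.intDegree_zero]
    · exact h3
  · right
    have h2 : -y = 0 ∨ (-y).intDegree ≤ y.intDegree := by
      right; rw [RatFunc.intDegree_neg]
    have h3 : -y + δ = 0 ∨ (-y + δ).intDegree ≤ y.intDegree :=
      deg_add_le h2 (hδ.imp_right fun h => by omega)
    have h4 : (y ^ p + (-y + δ)).intDegree = (y ^ p).intDegree := by
      apply deg_add_eq (pow_ne_zero _ hy)
      rcases h3 with h3 | h3
      · exact Or.inl h3
      · right
        rw [intDegree_pow' hy]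
        nlinarith
    have h5 : f = y ^ p + (-y + δ) := by rw [h]; ring
    rw [h5, h4, intDegree_pow' hy]
    exact Dvd.intro _ rfl

theorem val_const {k F : Type} [Field k] [Field F] [Algebra k F]
    (A : ValuationSubring F) (hk : ∀ c : k, algebraMap k F c ∈ A) (c : k) (hc : c ≠ 0) :
    A.valuation (algebraMap k F c) = 1 := by
  have h1 := (A.valuation_le_one_iff _).2 (hk c)
  have h2 := (A.valuation_le_one_iff _).2 (hk c⁻¹)
  rw [map_inv₀, map_inv₀] at h2
  have h3 : A.valuation (algebraMap k F c) ≠ 0 := by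
    rw [Valuation.ne_zero_iff]
    simpa using hc
  refine le_antisymm h1 ?_
  exact (inv_le_one₀ (zero_lt_iff.2 h3)).1 h2

theorem pk_X (k F : Type) [Field k] [Field F] [Algebra (RatFunc k) F] :
    pk k F Polynomial.X = tX k F := by
  simp [pk, tX]

theorem pk_C {k F : Type} [Field k] [Field F] [Algebra k F] [Algebra (RatFunc k) F]
    [IsScalarTower k (RatFunc k) F] (c : k) : pk k F (Polynomial.C c) = algebraMap k F c := by
  rw [IsScalarTower.algebraMap_apply k (RatFunc k) F]
  simp only [pk, RingHom.comp_apply]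
  congr 1

theorem val_poly {k F : Type} [Field k] [Field F] [Algebra k F] [Algebra (RatFunc k) F]
    [IsScalarTower k (RatFunc k) F] (A : ValuationSubring F) (hk : ∀ c : k, algebraMap k F c ∈ A)
    (hX : tX k F ∉ A) : ∀ (n : ℕ) (P : Polynomial k), P.natDegree < n → P ≠ 0 →
      A.valuation (pk k F P) = A.valuation (tX k F) ^ P.natDegree := by
  have hv : 1 < A.valuation (tX k F) := by
    rw [← not_le, A.valuation_le_one_iff]; exact hX
  intro n
  induction n with
  | zero => intro P h; omega
  | succ n ih =>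
    intro P hP hP0
    have h1 := P.eraseLead_add_C_mul_X_pow
    have hl : P.leadingCoeff ≠ 0 := Polynomial.leadingCoeff_ne_zero.2 hP0
    have h2 : A.valuation (pk k F (Polynomial.C P.leadingCoeff * Polynomial.X ^ P.natDegree)) =
        A.valuation (tX k F) ^ P.natDegree := by
      rw [map_mul, map_pow, map_mul, map_pow, pk_C, pk_X, val_const A hk _ hl, one_mul]
    rcases P.eraseLead_natDegree_lt_or_eraseLead_eq_zero with h3 | h3
    · rcases eq_or_ne P.eraseLead 0 with h4 | h4
      · rw [h4, zero_add] at h1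
        rw [← h2, h1]
      · have h5 := ih P.eraseLead (by omega) h4
        have h6 : A.valuation (pk k F P.eraseLead) <
            A.valuation (pk k F (Polynomial.C P.leadingCoeff * Polynomial.X ^ P.natDegree)) := by
          rw [h2, h5]
          exact pow_lt_pow_right₀ hv h3
        have h7 := Valuation.map_add_eq_of_lt_left _ h6
        rw [← map_add, add_comm, h1, h2] at h7
        exact h7
    · rw [h3, zero_add] at h1
      rw [← h2, h1]

theorem val_ratFunc {k F : Type} [Field k] [Field F] [Algebra k F] [Algebra (RatFunc k) F]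
    [IsScalarTower k (RatFunc k) F] (A : ValuationSubring F) (hk : ∀ c : k, algebraMap k F c ∈ A)
    (hX : tX k F ∉ A) (f : RatFunc k) (hf : f ≠ 0) :
    A.valuation (algebraMap (RatFunc k) F f) = A.valuation (tX k F) ^ f.intDegree := by
  have hv : 1 < A.valuation (tX k F) := by
    rw [← not_le, A.valuation_le_one_iff]; exact hX
  have h1 : algebraMap (RatFunc k) F f = pk k F f.num / pk k F f.denom := by
    conv_lhs => rw [← RatFunc.num_div_denom f]
    rw [map_div₀]
    rfl
  rw [h1, map_div₀, val_poly A hk hX _ _ (Nat.lt_succ_self _) (RatFunc.num_ne_zero hf),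
    val_poly A hk hX _ _ (Nat.lt_succ_self _) f.denom_ne_zero, RatFunc.intDegree,
    zpow_sub₀ (by exact ne_of_gt (lt_trans zero_lt_one hv)), zpow_natCast, zpow_natCast]

theorem mem_place_iff {k F : Type} [Field k] [Field F] [Algebra k F] [Algebra (RatFunc k) F]
    [IsScalarTower k (RatFunc k) F] (A : ValuationSubring F) (hk : ∀ c : k, algebraMap k F c ∈ A)
    (hX : tX k F ∉ A) (f : RatFunc k) :
    (algebraMap (RatFunc k) F f ∈ A ↔ f = 0 ∨ f.intDegree ≤ 0) ∧
    (algebraMap (RatFunc k) F f ∈ A.nonunits ↔ f = 0 ∨ f.intDegree < 0) := by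
  have hv : 1 < A.valuation (tX k F) := by
    rw [← not_le, A.valuation_le_one_iff]; exact hX
  rcases eq_or_ne f 0 with hf | hf
  · subst hf
    rw [map_zero]
    refine ⟨⟨fun _ => Or.inl rfl, fun _ => A.zero_mem⟩, ⟨fun _ => Or.inl rfl, fun _ => ?_⟩⟩
    rw [ValuationSubring.mem_nonunits_iff, map_zero]
    exact zero_lt_one
  · have h := val_ratFunc A hk hX f hf
    constructor
    · rw [← A.valuation_le_one_iff, h, ← zpow_zero (A.valuation (tX k F)),
        zpow_le_zpow_iff_right₀ hv]
      exact ⟨Or.inr, fun h => h.resolve_left hf⟩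
    · rw [ValuationSubring.mem_nonunits_iff, h, ← zpow_zero (A.valuation (tX k F)),
        zpow_lt_zpow_iff_right₀ hv]
      exact ⟨Or.inr, fun h => h.resolve_left hf⟩

end Pool.Agent.Helper54.PW
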