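import Pool.Agent.Helper51.PW.DensityAux
import Pool.Agent.Helper18.PW.WeakApprox

set_option autoImplicit false
open scoped Pointwise

namespace Pool.Agent.Helper54.PW

section
variable {k : Type} [Field k] [IsAlgClosed k]

theorem density_F {M F : Type} [Field M] [Field F] [Algebra k M] [Algebra k F] [Algebra M F]
    [IsScalarTower k M F] [FiniteDimensional M F] [IsGalois M F] (hF : FF k F)
    (A : ValuationSubring F) (hA : IsPlace k A) (y : F)
    (hy : ∀ σ : F ≃ₐ[M] F, σ • A = A → σ y = y) :
    ∃ y₀ : M, y - algebraMap M F y₀ ∈ A.nonunits :=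
  density_F_aux (fun _ _ B hB hinj i₀ Y => weak_approx hF B hB hinj i₀ Y) A hA y hy

variable {p : ℕ} [Fact p.Prime] {L : Type} [Field L] [Algebra k L] [Algebra (RatFunc k) L]
  [IsScalarTower k (RatFunc k) L] [FiniteDimensional (RatFunc k) L] [IsGalois (RatFunc k) L]
  {G : Type} [Group G] [Finite G] {V : Subgroup G} [V.Normal]
  (act : G →* (L ≃ₐ[RatFunc k] L)) (hact : Function.Surjective act)
  (A : ValuationSubring L) (hA : IsPlace k A)

include hact hA in
theorem density_T (y : TT p V L)
    (hy : ∀ g, act g • A = A → st p g (act g : L →+* L) y = y) :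
    ∃ y₀ : TT p V L, (∀ g, st p g (act g : L →+* L) y₀ = y₀) ∧ ∀ χ, y χ - y₀ χ ∈ A.nonunits :=
  density_T_aux (fun _ _ B hB hinj i₀ Y => weak_approx (ff_of_algebraic k L) B hB hinj i₀ Y)
    act hact A hA y hy
end

end Pool.Agent.Helper54.PW
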