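import Pool.Agent.Helper54.PW.Basic

set_option autoImplicit false
open scoped Pointwise

namespace Pool.Agent.Helper54.PW

theorem mul_mem_nonunits' {F : Type} [Field F] {A : ValuationSubring F} {a x : F} (ha : a ∈ A)
    (hx : x ∈ A.nonunits) : a * x ∈ A.nonunits := by
  rw [ValuationSubring.mem_nonunits_iff] at hx ⊢
  rw [map_mul]
  have h1 := (A.valuation_le_one_iff a).2 ha
  exact lt_of_le_of_lt (mul_le_of_le_one_left' h1) hx

section smul
variable {M F : Type} [Field M] [Field F] [Algebra M F]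

theorem mem_smul_iff' (σ : F ≃ₐ[M] F) (A : ValuationSubring F) (x : F) :
    x ∈ σ • A ↔ σ⁻¹ x ∈ A := ValuationSubring.mem_pointwise_smul_iff_inv_smul_mem

theorem mem_nonunits_smul (σ : F ≃ₐ[M] F) (A : ValuationSubring F) (x : F) :
    x ∈ (σ • A).nonunits ↔ σ⁻¹ x ∈ A.nonunits := by
  rw [ValuationSubring.mem_nonunits_iff_or, ValuationSubring.mem_nonunits_iff_or,
    mem_smul_iff', map_inv₀, map_eq_zero]

theorem isPlace_smul {k : Type} [Field k] [Algebra k M] [Algebra k F] [IsScalarTower k M F]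
    (σ : F ≃ₐ[M] F) {A : ValuationSubring F} (hA : IsPlace k A) : IsPlace k (σ • A) := by
  refine ⟨fun h => hA.1 ?_, fun c => ?_⟩
  · ext x
    refine ⟨fun _ => trivial, fun _ => ?_⟩
    have h1 : σ x ∈ σ • A := by rw [h]; trivial
    rw [mem_smul_iff'] at h1
    have h2 : σ⁻¹ (σ x) = x := σ.symm_apply_apply x
    rwa [h2] at h1
  · rw [mem_smul_iff', IsScalarTower.algebraMap_apply k M F, AlgEquiv.commutes,
      ← IsScalarTower.algebraMap_apply]
    exact hA.2 c
end smul

/-- the statement of weak approximation for the places of `F` -/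
def WA (k F : Type) [Field k] [Field F] [Algebra k F] : Prop :=
  ∀ (ι : Type) [Finite ι] (A : ι → ValuationSubring F), (∀ i, IsPlace k (A i)) →
    Function.Injective A → ∀ (i₀ : ι) (Y : Finset F),
    ∃ θ : F, (∀ y ∈ Y, (θ - 1) * y ∈ (A i₀).nonunits) ∧
      ∀ i, i ≠ i₀ → ∀ y ∈ Y, θ * y ∈ (A i).nonunits

theorem exists_theta {k M F : Type} [Field k] [Field M] [Field F] [Algebra k M] [Algebra k F]
    [Algebra M F] [IsScalarTower k M F] [FiniteDimensional M F] (hwa : WA k F)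
    (A : ValuationSubring F) (hA : IsPlace k A) (T : Finset F) :
    ∃ θ : F, (∀ σ : F ≃ₐ[M] F, σ • A = A → σ θ = θ) ∧ (∀ t ∈ T, (θ - 1) * t ∈ A.nonunits) ∧
      ∀ t ∈ T, ∀ σ : F ≃ₐ[M] F, σ • A ≠ A → θ * t ∈ (σ • A).nonunits := by
  classical
  have : Finite (MulAction.orbit (F ≃ₐ[M] F) A) :=
    Set.Finite.to_subtype (Set.finite_range _)
  let T' : Finset F := (Finset.univ ×ˢ (insert 1 T)).image
    fun z : (F ≃ₐ[M] F) × F => z.1 z.2
  obtain ⟨θ, h1, h2⟩ := hwa (MulAction.orbit (F ≃ₐ[M] F) A) (fun i => i.1)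
    (by
      rintro ⟨_, σ, rfl⟩
      exact isPlace_smul σ hA) Subtype.val_injective
    ⟨A, MulAction.mem_orbit_self A⟩ T'
  have hT' : ∀ (σ : F ≃ₐ[M] F) (t : F), t ∈ insert 1 T → σ t ∈ T' := by
    intro σ t ht
    exact Finset.mem_image.2 ⟨(σ, t), by simp [Finset.mem_product, Finset.mem_insert.1 ht], rfl⟩
  have h3 : ∀ (d : F ≃ₐ[M] F), d • A = A → ∀ t ∈ insert 1 T, (d θ - 1) * t ∈ A.nonunits := by
    intro d hd t ht
    have h := h1 _ (hT' d⁻¹ t ht)
    change _ ∈ A.nonunits at h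
    have h' : (d θ - 1) * t ∈ (d • A).nonunits := by
      rw [mem_nonunits_smul, map_mul, map_sub, map_one]
      have : d⁻¹ (d θ) = θ := d.symm_apply_apply θ
      rwa [this]
    rwa [hd] at h'
  have h4 : ∀ (d : F ≃ₐ[M] F), d • A = A → ∀ t ∈ insert 1 T, ∀ σ : F ≃ₐ[M] F, σ • A ≠ A →
      d θ * t ∈ (σ • A).nonunits := by
    intro d hd t ht σ hσ
    have hne : (d⁻¹ * σ) • A ≠ A := by
      intro h
      apply hσ
      rw [mul_smul] at h
      have := congrArg (fun B => d • B) h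
      simp only [smul_inv_smul] at this
      rw [this, hd]
    have h := h2 ⟨(d⁻¹ * σ) • A, ⟨_, rfl⟩⟩ (fun h => hne (congrArg Subtype.val h)) _
      (hT' d⁻¹ t ht)
    change _ ∈ ((d⁻¹ * σ) • A).nonunits at h
    rw [mul_smul, mem_nonunits_smul] at h
    have e1 : (d⁻¹)⁻¹ (θ * d⁻¹ t) = d θ * t := by
      rw [inv_inv, map_mul]
      congr 1
      exact d.apply_symm_apply t
    rwa [e1] at h
  have h3A : ∀ (d : F ≃ₐ[M] F), d • A = A → d θ ∈ A := by
    intro d hd
    have h := h3 d hd 1 (Finset.mem_insert_self _ _)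
    rw [mul_one] at h
    have h' := A.add_mem _ _ (ValuationSubring.nonunits_subset h) A.one_mem
    rwa [sub_add_cancel] at h'
  have h4A : ∀ (d : F ≃ₐ[M] F), d • A = A → ∀ σ : F ≃ₐ[M] F, σ • A ≠ A →
      d θ ∈ σ • A := by
    intro d hd σ hσ
    have h := h4 d hd 1 (Finset.mem_insert_self _ _) σ hσ
    rw [mul_one] at h
    exact ValuationSubring.nonunits_subset h
  let D : Finset (F ≃ₐ[M] F) := Finset.univ.filter fun d => d • A = A
  refine ⟨∏ d ∈ D, d θ, ?_, ?_, ?_⟩
  · intro σ hσ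
    rw [map_prod]
    refine Finset.prod_equiv (Equiv.mulLeft σ) ?_ ?_
    · intro d
      simp only [D, Finset.mem_filter, Finset.mem_univ, true_and, Equiv.coe_mulLeft]
      rw [mul_smul]
      constructor
      · intro h; rw [h, hσ]
      · intro h
        have := congrArg (fun B => σ⁻¹ • B) h
        simp only [inv_smul_smul] at this
        rw [this]
        conv_lhs => rw [← hσ]
        rw [inv_smul_smul]
    · intro d _
      rfl
  · intro t ht
    have key : ∀ D' : Finset (F ≃ₐ[M] F), (∀ d ∈ D', d • A = A) →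
        ((∏ d ∈ D', d θ) - 1) * t ∈ A.nonunits := by
      intro D'
      induction D' using Finset.induction_on with
      | empty =>
        intro _
        simp only [Finset.prod_empty, sub_self, zero_mul]
        exact A.nonunits.zero_mem
      | insert d D' hd ih =>
        intro hD
        rw [Finset.prod_insert hd]
        have e : (d θ * ∏ d ∈ D', d θ - 1) * t =
            d θ * ((∏ d ∈ D', d θ - 1) * t) + (d θ - 1) * t := by ring
        rw [e]
        refine A.nonunits.add_mem (mul_mem_nonunits' (h3A d (hD d (Finset.mem_insert_self _ _)))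
          (ih fun d' hd' => hD d' (Finset.mem_insert_of_mem hd'))) ?_
        exact h3 d (hD d (Finset.mem_insert_self _ _)) t (Finset.mem_insert_of_mem ht)
    exact key D fun d hd => (Finset.mem_filter.1 hd).2
  · intro t ht σ hσ
    have h1D : (1 : F ≃ₐ[M] F) ∈ D := by simp [D]
    rw [← Finset.mul_prod_erase D _ h1D]
    have e : (1 : F ≃ₐ[M] F) θ * (∏ x ∈ D.erase 1, x θ) * t =
        (∏ x ∈ D.erase 1, x θ) * ((1 : F ≃ₐ[M] F) θ * t) := by ring
    rw [e]
    refine mul_mem_nonunits' (Subring.prod_mem (σ • A).toSubring fun d hd => ?_)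
      (h4 1 (one_smul _ _) t (Finset.mem_insert_of_mem ht) σ hσ)
    exact h4A d (Finset.mem_filter.1 (Finset.mem_of_mem_erase hd)).2 σ hσ

theorem exists_sum_inv {G ι N : Type} [Group G] [Fintype ι] [AddCommGroup N] (ρ : G → N →+ N)
    (hρ : ∀ g h z, ρ (g * h) z = ρ g (ρ h z)) (a : G →* Equiv.Perm ι) (i₀ : ι)
    (htr : ∀ i, ∃ g, a g i₀ = i) (z : N) (hz : ∀ g, a g i₀ = i₀ → ρ g z = z) :
    ∃ g : ι → G, (∀ i, a (g i) i₀ = i) ∧ (∀ h, ρ h (∑ i, ρ (g i) z) = ∑ i, ρ (g i) z) := by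
  choose g hg using htr
  refine ⟨g, hg, fun h => ?_⟩
  rw [map_sum]
  rw [← Equiv.sum_comp (a h) (fun i => ρ (g i) z)]
  refine Finset.sum_congr rfl fun i _ => ?_
  rw [← hρ]
  have h1 : h * g i = g (a h i) * ((g (a h i))⁻¹ * (h * g i)) := by group
  rw [h1, hρ, hz]
  rw [map_mul, map_mul, map_inv]
  change (a (g ((a h) i)))⁻¹ ((a h) ((a (g i)) i₀)) = i₀
  rw [hg, Equiv.Perm.inv_eq_iff_eq, hg]

end Pool.Agent.Helper54.PW
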