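import Pool.Agent.Helper54.PW.Basic
import Pool.Agent.Helper28.PW.Duality
import Pool.Agent.Helper18.PW.Places1

set_option autoImplicit false
open scoped Pointwise

namespace Pool.Agent.Helper54.PW

theorem wp_surj_sep {p : ℕ} [Fact p.Prime] {E : Type} [Field E] [CharP E p] [IsSepClosed E]
    (x : E) : ∃ y, wp p E y = x := by
  have hp : p.Prime := Fact.out
  obtain ⟨y, hy⟩ := IsSepClosed.exists_root_C_mul_X_pow_add_C_mul_X_add_C (k := E) (n := p)
    1 (-1) (-x) (CharP.cast_eq_zero E p) hp.two_le (by simp)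
  refine ⟨y, ?_⟩
  rw [wp_apply]
  linear_combination hy

theorem prod_sub_castHom {p : ℕ} [Fact p.Prime] {E : Type} [Field E] [CharP E p] (y : E) :
    ∏ c : ZMod p, (y - ZMod.castHom (dvd_refl p) E c) = wp p E y := by
  have hp : p.Prime := Fact.out
  have h1 : (∏ c : ZMod p, (Polynomial.X - Polynomial.C c)) =
      (Polynomial.X ^ p - Polynomial.X : Polynomial (ZMod p)) := by
    have hr := FiniteField.roots_X_pow_card_sub_X (ZMod p)
    rw [ZMod.card] at hr
    have hm : (Polynomial.X ^ p - Polynomial.X : Polynomial (ZMod p)).Monic := by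
      apply Polynomial.monic_X_pow_sub
      rw [Polynomial.degree_X]
      exact_mod_cast hp.one_lt
    have hcard : (Polynomial.X ^ p - Polynomial.X : Polynomial (ZMod p)).roots.card =
        (Polynomial.X ^ p - Polynomial.X : Polynomial (ZMod p)).natDegree := by
      rw [hr, FiniteField.X_pow_card_sub_X_natDegree_eq _ hp.one_lt]
      simp [ZMod.card]
    have h2 := Polynomial.prod_multiset_X_sub_C_of_monic_of_roots_card_eq hm hcard
    rw [hr] at h2
    exact h2
  have h2 := congrArg (fun q => Polynomial.eval₂ (ZMod.castHom (dvd_refl p) E) y q) h1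
  simp only [Polynomial.eval₂_finsetProd, Polynomial.eval₂_sub, Polynomial.eval₂_X,
    Polynomial.eval₂_C, Polynomial.eval₂_pow] at h2
  rw [h2, wp_apply]

theorem wp_surj_nonunits {p : ℕ} [Fact p.Prime] {E : Type} [Field E] [CharP E p] [IsSepClosed E]
    (B : ValuationSubring E) (x : E) (hx : x ∈ B.nonunits) : ∃ y ∈ B.nonunits, wp p E y = x := by
  obtain ⟨y, hy⟩ := wp_surj_sep (p := p) x
  have h1 : B.valuation (∏ c : ZMod p, (y - ZMod.castHom (dvd_refl p) E c)) < 1 := by
    rw [prod_sub_castHom, hy]; exact hx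
  rw [map_prod] at h1
  obtain ⟨c, hc⟩ : ∃ c : ZMod p, B.valuation (y - ZMod.castHom (dvd_refl p) E c) < 1 := by
    by_contra hno
    push Not at hno
    exact absurd h1 (not_lt.2 (Finset.one_le_prod' fun c _ => hno c))
  refine ⟨_, hc, ?_⟩
  rw [map_sub, wp_castHom, sub_zero, hy]

theorem mem_nonunits_comap {L E : Type} [Field L] [Field E] (f : L →+* E)
    (B : ValuationSubring E) (x : L) : x ∈ (B.comap f).nonunits ↔ f x ∈ B.nonunits := by
  rw [ValuationSubring.mem_nonunits_iff_or, ValuationSubring.mem_nonunits_iff_or,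
    ValuationSubring.mem_comap, map_inv₀, map_eq_zero]

theorem exists_F {p : ℕ} [Fact p.Prime] {k L : Type} [Field k] [IsAlgClosed k] [CharP k p]
    [Field L] [CharP L p] [Algebra k L] [Algebra (RatFunc k) L] [IsScalarTower k (RatFunc k) L]
    [FiniteDimensional (RatFunc k) L] [IsGalois (RatFunc k) L]
    (A : ValuationSubring L) (hA : IsPlace k A) {W₁ W₂ : Type} [Group W₁] [Finite W₁] [Group W₂]
    [Finite W₂] (h₁ : ∀ a b : W₁, a * b = b * a) (h₁' : ∀ a : W₁, a ^ p = 1)
    (h₂ : ∀ a b : W₂, a * b = b * a) (h₂' : ∀ a : W₂, a ^ p = 1)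
    (a : TT p W₁ L) (δ : TT p W₂ L) (hδ : ∀ χ, δ χ ∈ A.nonunits) (c : L) :
    ∃ (F : Type) (_ : Field F) (_ : CharP F p) (_ : Algebra k F) (_ : Algebra (RatFunc k) F)
      (_ : Algebra L F) (_ : IsScalarTower k (RatFunc k) F) (_ : IsScalarTower (RatFunc k) L F)
      (_ : IsScalarTower k L F) (_ : FiniteDimensional (RatFunc k) F)
      (_ : IsGalois (RatFunc k) F) (B : ValuationSubring F) (w : TT p W₁ F) (ε : TT p W₂ F)
      (z : F), IsPlace k B ∧ B.comap (algebraMap L F) = A ∧
      (∀ χ, wp p F (w χ) = algebraMap L F (a χ)) ∧ (∀ χ, wp p F (ε χ) = algebraMap L F (δ χ)) ∧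
      (∀ χ, ε χ ∈ B.nonunits) ∧ z ^ p - z = algebraMap L F c := by
  classical
  let E := SeparableClosure (RatFunc k)
  let ι : L →ₐ[RatFunc k] E := IsSepClosed.lift
  let _ : Algebra k E := ((algebraMap (RatFunc k) E).comp (algebraMap k (RatFunc k))).toAlgebra
  have : IsScalarTower k (RatFunc k) E := IsScalarTower.of_algebraMap_eq (fun x => rfl)
  let _ : Algebra L E := ι.toRingHom.toAlgebra
  have hLE : ∀ x : L, algebraMap L E x = ι x := fun _ => rfl
  have : IsScalarTower (RatFunc k) L E :=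
    IsScalarTower.of_algebraMap_eq (fun x => (ι.commutes x).symm)
  have : IsScalarTower k L E := IsScalarTower.of_algebraMap_eq (fun x => by
    rw [IsScalarTower.algebraMap_apply k (RatFunc k) L, hLE, ι.commutes]
    rfl)
  have hcE : CharP E p := charP_of_injective_algebraMap (algebraMap k E).injective p
  obtain ⟨B', hB', hB'A⟩ := exists_place_extension (Ω := E) A hA
  obtain ⟨w, -, hw⟩ := exists_lift_wp h₁ h₁' E ⊤ (fun x _ => by
    obtain ⟨y, hy⟩ := wp_surj_sep (p := p) x
    exact ⟨y, trivial, hy⟩) ((algebraMap L E : L →+ E).comp a) (fun _ => trivial)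
  obtain ⟨ε, hε, hεw⟩ := exists_lift_wp h₂ h₂' E B'.nonunits.toAddSubgroup (fun x hx =>
    wp_surj_nonunits (p := p) B' x hx) ((algebraMap L E : L →+ E).comp δ) (fun χ => by
      have h := hδ χ
      rw [← hB'A] at h
      exact (mem_nonunits_comap _ _ _).1 h)
  obtain ⟨z, hz⟩ := wp_surj_sep (p := p) (algebraMap L E c)
  let b := Module.finBasis (RatFunc k) L
  have hf1 : Finite (Dl p W₁) :=
    Finite.of_injective (fun f : Dl p W₁ => (f : Additive W₁ → ZMod p)) DFunLike.coe_injective
  have hf2 : Finite (Dl p W₂) :=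
    Finite.of_injective (fun f : Dl p W₂ => (f : Additive W₂ → ZMod p)) DFunLike.coe_injective
  let s : Set E := Set.range (fun i => ι (b i)) ∪ (Set.range w ∪ (Set.range ε ∪ {z}))
  have hs : s.Finite := (Set.finite_range _).union ((Set.finite_range _).union
    ((Set.finite_range _).union (Set.finite_singleton z)))
  have : Finite s := hs.to_subtype
  let F0 := FiniteGaloisIntermediateField.adjoin (RatFunc k) s
  let F : IntermediateField (RatFunc k) E := F0.toIntermediateField
  have hsF : s ⊆ F := FiniteGaloisIntermediateField.subset_adjoin (RatFunc k) s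
  have hιF : ∀ x : L, ι x ∈ F := by
    intro x
    rw [← b.sum_repr x, map_sum]
    refine sum_mem fun i _ => ?_
    rw [map_smul]
    exact F.smul_mem (hsF (Or.inl ⟨i, rfl⟩))
  have hwF : ∀ χ, w χ ∈ F := fun χ => hsF (Or.inr (Or.inl ⟨χ, rfl⟩))
  have hεF : ∀ χ, ε χ ∈ F := fun χ => hsF (Or.inr (Or.inr (Or.inl ⟨χ, rfl⟩)))
  have hzF : z ∈ F := hsF (Or.inr (Or.inr (Or.inr rfl)))
  let _ : Algebra k F := ((algebraMap (RatFunc k) F).comp (algebraMap k (RatFunc k))).toAlgebra
  have t1 : IsScalarTower k (RatFunc k) F := IsScalarTower.of_algebraMap_eq (fun x => rfl)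
  let j : L →+* F := ι.toRingHom.codRestrict F.toSubfield hιF
  let _ : Algebra L F := j.toAlgebra
  have t2 : IsScalarTower (RatFunc k) L F := IsScalarTower.of_algebraMap_eq (fun x => by
    apply Subtype.ext
    exact (ι.commutes x).symm)
  have t3 : IsScalarTower k L F := IsScalarTower.of_algebraMap_eq (fun x => by
    apply Subtype.ext
    change _ = ι (algebraMap k L x)
    rw [IsScalarTower.algebraMap_apply k (RatFunc k) L, ι.commutes]
    rfl)
  have hcF : CharP F p := charP_of_injective_algebraMap (algebraMap k F).injective p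
  have hFE : ∀ x : L, ((algebraMap L F x : F) : E) = algebraMap L E x := fun _ => rfl
  let v : F →+* E := algebraMap F E
  refine ⟨F, inferInstance, hcF, inferInstance, inferInstance, inferInstance, t1, t2, t3,
    F0.finiteDimensional, F0.isGalois, B'.comap v,
    ⟨⟨fun χ => ⟨w χ, hwF χ⟩, ?_⟩, ?_⟩, ⟨⟨fun χ => ⟨ε χ, hεF χ⟩, ?_⟩, ?_⟩, ⟨z, hzF⟩,
    ⟨?_, ?_⟩, ?_, ?_, ?_, ?_, ?_⟩
  · exact Subtype.ext (map_zero w)
  · intro x y
    exact Subtype.ext (map_add w x y)
  · exact Subtype.ext (map_zero ε)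
  · intro x y
    exact Subtype.ext (map_add ε x y)
  · intro h
    apply hA.1
    rw [← hB'A]
    ext x
    refine ⟨fun _ => trivial, fun _ => ?_⟩
    have h1 : algebraMap L F x ∈ B'.comap v := by rw [h]; trivial
    exact h1
  · intro c
    exact hB'.2 c
  · rw [← hB'A]
    rfl
  · intro χ
    apply Subtype.ext
    exact hw χ
  · intro χ
    apply Subtype.ext
    exact hεw χ
  · intro χ
    rw [mem_nonunits_comap]
    exact hε χ
  · apply Subtype.ext
    exact hz

end Pool.Agent.Helper54.PW
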