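import Pool.Agent.Helper51.PW.ThetaAux

set_option autoImplicit false
open scoped Pointwise

namespace Pool.Agent.Helper54.PW

theorem density_F_aux {k M F : Type} [Field k] [Field M] [Field F] [Algebra k M] [Algebra k F]
    [Algebra M F] [IsScalarTower k M F] [FiniteDimensional M F] [IsGalois M F] (hwa : WA k F)
    (A : ValuationSubring F) (hA : IsPlace k A) (y : F)
    (hy : ∀ σ : F ≃ₐ[M] F, σ • A = A → σ y = y) :
    ∃ y₀ : M, y - algebraMap M F y₀ ∈ A.nonunits := by
  classical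
  obtain ⟨θ, h1, h2, h3⟩ := exists_theta (M := M) hwa A hA {y}
  have : Finite (MulAction.orbit (F ≃ₐ[M] F) A) :=
    Set.Finite.to_subtype (Set.finite_range _)
  let _ := Fintype.ofFinite (MulAction.orbit (F ≃ₐ[M] F) A)
  let i₀ : MulAction.orbit (F ≃ₐ[M] F) A := ⟨A, MulAction.mem_orbit_self A⟩
  obtain ⟨g, hg1, hg2⟩ := exists_sum_inv (G := F ≃ₐ[M] F) (N := F)
    (fun σ => (σ : F →+* F).toAddMonoidHom) (fun _ _ _ => rfl)
    (MulAction.toPermHom (F ≃ₐ[M] F) (MulAction.orbit (F ≃ₐ[M] F) A)) i₀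
    (by
      rintro ⟨_, σ, rfl⟩
      exact ⟨σ, rfl⟩) (θ * y) (by
      intro σ hσ
      have hσ' : σ • A = A := congrArg Subtype.val hσ
      change σ (θ * y) = θ * y
      rw [map_mul, h1 σ hσ', hy σ hσ'])
  change ∀ σ : F ≃ₐ[M] F, σ (∑ i, (g i) (θ * y)) = ∑ i, (g i) (θ * y) at hg2
  obtain ⟨y₀, hy₀⟩ := (IsGalois.mem_range_algebraMap_iff_fixed _).2 hg2
  refine ⟨y₀, ?_⟩
  rw [hy₀]
  have hgA : ∀ i, (g i) • A = i.1 := fun i => congrArg Subtype.val (hg1 i)
  rw [← Finset.add_sum_erase Finset.univ _ (Finset.mem_univ i₀)]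
  have e1 : (g i₀) (θ * y) = θ * y := by
    rw [map_mul, h1 _ (hgA i₀), hy _ (hgA i₀)]
  rw [e1]
  have e2 : y - (θ * y + ∑ x ∈ Finset.univ.erase i₀, (g x) (θ * y)) =
      -((θ - 1) * y) - ∑ x ∈ Finset.univ.erase i₀, (g x) (θ * y) := by ring
  rw [e2]
  refine A.nonunits.sub_mem (A.nonunits.neg_mem (h2 y (Finset.mem_singleton_self y))) ?_
  refine sum_mem fun i hi => ?_
  have hne : i ≠ i₀ := Finset.ne_of_mem_erase hi
  have hne' : (g i)⁻¹ • A ≠ A := by
    intro h
    apply hne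
    apply Subtype.ext
    rw [← hgA i]
    change (g i) • A = A
    conv_lhs => rw [← h]
    rw [smul_inv_smul]
  have h := h3 y (Finset.mem_singleton_self y) _ hne'
  rw [mem_nonunits_smul, inv_inv] at h
  exact h

theorem density_T_aux {k : Type} [Field k] {p : ℕ} [Fact p.Prime] {L : Type} [Field L]
    [Algebra k L] [Algebra (RatFunc k) L]
    [IsScalarTower k (RatFunc k) L] [FiniteDimensional (RatFunc k) L]
    {G : Type} [Group G] [Finite G] {V : Subgroup G} [V.Normal] (hwa : WA k L)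
    (act : G →* (L ≃ₐ[RatFunc k] L)) (hact : Function.Surjective act)
    (A : ValuationSubring L) (hA : IsPlace k A) (y : TT p V L)
    (hy : ∀ g, act g • A = A → st p g (act g : L →+* L) y = y) :
    ∃ y₀ : TT p V L, (∀ g, st p g (act g : L →+* L) y₀ = y₀) ∧
      ∀ χ, y χ - y₀ χ ∈ A.nonunits := by
  classical
  have hfin : Finite (Dl p V) :=
    Finite.of_injective (fun f : Dl p V => (f : Additive V → ZMod p)) DFunLike.coe_injective
  let _ := Fintype.ofFinite (Dl p V)
  let T : Finset L := Finset.univ.image fun χ : Dl p V => y χ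
  have hT : ∀ χ, y χ ∈ T := fun χ => Finset.mem_image_of_mem _ (Finset.mem_univ _)
  obtain ⟨θ, h1, h2, h3⟩ := exists_theta (M := RatFunc k) hwa A hA T
  have : Finite (MulAction.orbit (L ≃ₐ[RatFunc k] L) A) :=
    Set.Finite.to_subtype (Set.finite_range _)
  let _ := Fintype.ofFinite (MulAction.orbit (L ≃ₐ[RatFunc k] L) A)
  let i₀ : MulAction.orbit (L ≃ₐ[RatFunc k] L) A := ⟨A, MulAction.mem_orbit_self A⟩
  obtain ⟨g, hg1, hg2⟩ := exists_sum_inv (G := G) (N := TT p V L)
    (fun q => stHom p q (act q : L →+* L)) (by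
      intro q r z
      change st p (q * r) _ z = st p q _ (st p r _ z)
      rw [← st_mul, map_mul]
      rfl)
    ((MulAction.toPermHom (L ≃ₐ[RatFunc k] L) (MulAction.orbit (L ≃ₐ[RatFunc k] L) A)).comp act) i₀
    (by
      rintro ⟨_, σ, rfl⟩
      obtain ⟨q, rfl⟩ := hact σ
      exact ⟨q, rfl⟩) (θ • y) (by
      intro q hq
      have hσ' : act q • A = A := congrArg Subtype.val hq
      change st p q _ (θ • y) = θ • y
      rw [st_smul, hy q hσ']
      congr 1
      exact h1 _ hσ')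
  change ∀ q : G, st p q (act q : L →+* L) (∑ i, st p (g i) (act (g i) : L →+* L) (θ • y)) =
    ∑ i, st p (g i) (act (g i) : L →+* L) (θ • y) at hg2
  refine ⟨_, hg2, fun χ => ?_⟩
  have hgA : ∀ i, act (g i) • A = i.1 := fun i => congrArg Subtype.val (hg1 i)
  have e1 : st p (g i₀) (act (g i₀) : L →+* L) (θ • y) = θ • y := by
    rw [st_smul, hy _ (hgA i₀)]
    congr 1
    exact h1 _ (hgA i₀)
  rw [← Finset.add_sum_erase Finset.univ _ (Finset.mem_univ i₀), e1, AddMonoidHom.add_apply,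
    AddMonoidHom.finsetSum_apply]
  change y χ - (θ * y χ + _) ∈ _
  have e2 : ∀ s : L, y χ - (θ * y χ + s) = -((θ - 1) * y χ) - s := by intro s; ring
  rw [e2]
  refine A.nonunits.sub_mem (A.nonunits.neg_mem (h2 _ (hT χ))) ?_
  refine sum_mem fun i hi => ?_
  have hne : i ≠ i₀ := Finset.ne_of_mem_erase hi
  have hne' : (act (g i))⁻¹ • A ≠ A := by
    intro h
    apply hne
    apply Subtype.ext
    rw [← hgA i]
    change act (g i) • A = A
    conv_lhs => rw [← h]
    rw [smul_inv_smul]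
  have h := h3 _ (hT (cj p (g i) χ)) _ hne'
  rw [mem_nonunits_smul, inv_inv] at h
  exact h

end Pool.Agent.Helper54.PW
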