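import Pool.Agent.Helper51.PW.SolHomAux
import Pool.Agent.Helper28.PW.Duality

set_option autoImplicit false
open scoped Pointwise

namespace Pool.Agent.Helper54.PW

theorem sol_hom {p : ℕ} [Fact p.Prime] {Q : Type} [Group Q] {W : Subgroup Q} [W.Normal] [Finite W]
    (hc : ∀ a b : W, a * b = b * a) (hp : ∀ a : W, a ^ p = 1) {L F : Type} [Field L] [Field F]
    [CharP L p] [CharP F p] (i : L →+* F) (act : Q → L →+* L)
    (hmul : ∀ g h x, act (g * h) x = act g (act h x))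
    (hker : ∀ q, (∀ x, act q x = x) ↔ q ∈ W) {Γ : Type} [Group Γ] (aF : Γ → F →+* F)
    (hFmul : ∀ γ δ x, aF (γ * δ) x = aF γ (aF δ x))
    (hres : ∀ γ, ∃ q, ∀ x : L, aF γ (i x) = i (act q x)) (β : Q → TT p W L)
    (hβ : ∀ g h, β (g * h) = β g + st p g (act g) (β h)) (hβW : ∀ w : W, β w = ev p L w)
    (a : TT p W L) (ha : ∀ q, (wp p L).comp (β q) = st p q (act q) a - a)
    (w : TT p W F) (hw : ∀ χ, wp p F (w χ) = i (a χ)) :
    ∃ ρ : Γ →* Q, (∀ γ x, aF γ (i x) = i (act (ρ γ) x)) ∧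
      (∀ γ, st p (ρ γ) (aF γ) w = w + (i : L →+ F).comp (β (ρ γ))) ∧
      ∀ γ q, (∀ x, aF γ (i x) = i (act q x)) →
        st p q (aF γ) w = w + (i : L →+ F).comp (β q) → q = ρ γ :=
  sol_hom_aux hc (ev_injective hc hp L) (exists_ev_of_fixed hc hp F) i act hmul hker aF hFmul hres
    β hβ hβW a ha w hw

end Pool.Agent.Helper54.PW
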