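import Pool.Agent.Helper54.PW.Basic

set_option autoImplicit false
open scoped Pointwise

namespace Pool.Agent.Helper54.PW

theorem sol_hom_aux {p : ℕ} [Fact p.Prime] {Q : Type} [Group Q] {W : Subgroup Q} [W.Normal]
    (hc : ∀ a b : W, a * b = b * a) {L F : Type} [Field L] [Field F]
    [CharP L p] [CharP F p] (hinj : Function.Injective (ev p L (W := W)))
    (hfix : ∀ f : TT p W F, (∀ χ, f χ ^ p = f χ) → ∃ w : W, f = ev p F w)
    (i : L →+* F) (act : Q → L →+* L)
    (hmul : ∀ g h x, act (g * h) x = act g (act h x))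
    (hker : ∀ q, (∀ x, act q x = x) ↔ q ∈ W) {Γ : Type} [Group Γ] (aF : Γ → F →+* F)
    (hFmul : ∀ γ δ x, aF (γ * δ) x = aF γ (aF δ x))
    (hres : ∀ γ, ∃ q, ∀ x : L, aF γ (i x) = i (act q x)) (β : Q → TT p W L)
    (hβ : ∀ g h, β (g * h) = β g + st p g (act g) (β h)) (hβW : ∀ w : W, β w = ev p L w)
    (a : TT p W L) (ha : ∀ q, (wp p L).comp (β q) = st p q (act q) a - a)
    (w : TT p W F) (hw : ∀ χ, wp p F (w χ) = i (a χ)) :
    ∃ ρ : Γ →* Q, (∀ γ x, aF γ (i x) = i (act (ρ γ) x)) ∧
      (∀ γ, st p (ρ γ) (aF γ) w = w + (i : L →+ F).comp (β (ρ γ))) ∧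
      ∀ γ q, (∀ x, aF γ (i x) = i (act q x)) →
        st p q (aF γ) w = w + (i : L →+ F).comp (β q) → q = ρ γ := by
  have hw' : (wp p F).comp w = (i : L →+ F).comp a := AddMonoidHom.ext hw
  have hone : ∀ x, act 1 x = x := (hker 1).2 W.one_mem
  -- existence
  have hex : ∀ γ, ∃ q, (∀ x, aF γ (i x) = i (act q x)) ∧
      st p q (aF γ) w = w + (i : L →+ F).comp (β q) := by
    intro γ
    obtain ⟨q, hq⟩ := hres γ
    have h1 : (wp p F).comp (st p q (aF γ) w - w - (i : L →+ F).comp (β q)) = 0 := by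
      rw [AddMonoidHom.comp_sub, AddMonoidHom.comp_sub, wp_st, hw', ← map_wp, ha,
        ← map_st i q (act q) (aF γ) hq, AddMonoidHom.comp_sub]
      abel
    obtain ⟨v, hv⟩ := hfix (st p q (aF γ) w - w - (i : L →+ F).comp (β q)) (by
      intro χ
      have := DFunLike.congr_fun h1 χ
      rw [AddMonoidHom.comp_apply, wp_apply, AddMonoidHom.zero_apply, sub_eq_zero] at this
      exact this)
    refine ⟨(v : Q) * q, ?_, ?_⟩
    · intro x
      rw [hq, hmul, (hker v).2 v.2]
    · have h2 : st p ((v : Q) * q) (aF γ) w = st p q (aF γ) w := by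
        refine AddMonoidHom.ext fun χ => ?_
        rw [st_apply, st_apply, cj_mul, cj_mem hc]
      have h3 : st p (v : Q) (act v) (β q) = β q := by
        refine AddMonoidHom.ext fun χ => ?_
        rw [st_apply, cj_mem hc, (hker v).2 v.2]
      rw [h2, hβ, h3, hβW, AddMonoidHom.comp_add, map_ev, ← hv]
      abel
  -- uniqueness
  have huniq : ∀ γ q q', (∀ x, aF γ (i x) = i (act q x)) →
      st p q (aF γ) w = w + (i : L →+ F).comp (β q) →
      (∀ x, aF γ (i x) = i (act q' x)) →
      st p q' (aF γ) w = w + (i : L →+ F).comp (β q') → q = q' := by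
    intro γ q q' h1 h2 h3 h4
    have h5 : ∀ x, act q x = act q' x := fun x => i.injective (by rw [← h1, ← h3])
    have h6 : q * q'⁻¹ ∈ W := by
      rw [← hker]
      intro x
      rw [hmul, h5, ← hmul, mul_inv_cancel, hone]
    set v : W := ⟨q * q'⁻¹, h6⟩ with hv
    have h7 : q = (v : Q) * q' := by simp [hv]
    have h8 : st p ((v : Q) * q') (aF γ) w = st p q' (aF γ) w := by
      refine AddMonoidHom.ext fun χ => ?_
      rw [st_apply, st_apply, cj_mul, cj_mem hc]
    have h9 : st p (v : Q) (act v) (β q') = β q' := by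
      refine AddMonoidHom.ext fun χ => ?_
      rw [st_apply, cj_mem hc, (hker v).2 v.2]
    rw [h7, h8, h4, hβ, h9, hβW, AddMonoidHom.comp_add] at h2
    have h10 : (i : L →+ F).comp (ev p L v) = 0 := by
      have := add_left_cancel h2
      have h11 : (i : L →+ F).comp (ev p L v) + (i : L →+ F).comp (β q') =
        0 + (i : L →+ F).comp (β q') := by rw [zero_add, ← this]
      exact add_right_cancel h11
    have h12 : ev p L v = ev p L 1 := by
      rw [ev_one]
      refine AddMonoidHom.ext fun χ => ?_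
      have := DFunLike.congr_fun h10 χ
      apply i.injective
      rw [AddMonoidHom.zero_apply, map_zero]
      exact this
    have h13 := hinj h12
    rw [h7, h13]
    simp
  choose ρ h1 h2 using hex
  refine ⟨MonoidHom.mk' ρ ?_, h1, h2, ?_⟩
  · intro γ δ
    apply huniq (γ * δ) _ _ (h1 _) (h2 _)
    · intro x
      rw [hFmul, h1, h1, hmul]
    · have h3 : st p (ρ γ * ρ δ) (aF (γ * δ)) w =
          st p (ρ γ) (aF γ) (st p (ρ δ) (aF δ) w) := by
        rw [← st_mul]
        refine AddMonoidHom.ext fun χ => ?_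
        rw [st_apply, st_apply, hFmul]
        rfl
      rw [h3, h2, st_add, h2, ← map_st i (ρ γ) (act (ρ γ)) (aF γ) (h1 γ), hβ,
        AddMonoidHom.comp_add, add_assoc]
  · intro γ q h3 h4
    exact huniq γ q (ρ γ) h3 h4 (h1 γ) (h2 γ)

end Pool.Agent.Helper54.PW
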